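import Pool.Agent.Run7.h30.Forms

set_option autoImplicit false

open Module Pool.Agent.W539.DI Pool.Agent.R929.DH

namespace Run7.h30

/-- The dimension of the space of classes `x` of type `(p, q)` with `L ^ j x = 0`. -/
noncomputable def kerDim {n : ℕ} (X : KRing n) (L : X.R) (j : ℕ) (p q : ℤ) : ℕ :=
  finrank ℂ (X.H (p, q) ⊓ LinearMap.ker (LinearMap.mulLeft ℂ (L ^ j)) : Submodule ℂ X.R)

theorem rk_add_kerDim {n : ℕ} (X : KRing n) (L : X.R) (j : ℕ) (p q : ℤ) :
    rk X L j p q + kerDim X L j p q = X.h p q := by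
  unfold rk kerDim KRing.h
  set f : X.H (p, q) →ₗ[ℂ] X.R := (LinearMap.mulLeft ℂ (L ^ j)) ∘ₗ (X.H (p, q)).subtype with hf
  have h1 := LinearMap.finrank_range_add_finrank_ker f
  have h2 : LinearMap.range f = Submodule.map (LinearMap.mulLeft ℂ (L ^ j)) (X.H (p, q)) := by
    rw [hf, LinearMap.range_comp, Submodule.range_subtype]
  have h3 : finrank ℂ (LinearMap.ker f) =
      finrank ℂ (X.H (p, q) ⊓ LinearMap.ker (LinearMap.mulLeft ℂ (L ^ j)) : Submodule ℂ X.R) := by
    rw [hf, LinearMap.ker_comp, ← Submodule.map_comap_subtype]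
    exact (Submodule.equivMapOfInjective _ (Submodule.injective_subtype _) _).finrank_eq
  rw [h2, h3] at h1
  exact h1

variable {n : ℕ} {X Y : KRing n} {L : X.R} {L' : Y.R} {ν : ℕ}

theorem kerDim_top {Z : KRing n} {M : Z.R} (hM : M ^ (ν + 1) = 0) {j : ℕ} (hj : ν < j) (p q : ℤ) :
    kerDim Z M j p q = Z.h p q := by
  unfold kerDim KRing.h
  have h1 : M ^ j = 0 := by
    have e : j = (ν + 1) + (j - (ν + 1)) := by omega
    rw [e, pow_add, hM, zero_mul]
  have h2 : LinearMap.ker (LinearMap.mulLeft ℂ (M ^ j)) = ⊤ := by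
    rw [h1, LinearMap.mulLeft_zero_eq_zero, LinearMap.ker_zero]
  rw [h2, inf_top_eq]

section

variable (P : PullbackAmple X L ν) (Q : PullbackAmple Y L' ν) {Φ : FM X Y}
  (h : Intertwines Φ L L') (hL : L ^ (ν + 1) = 0) (hL' : L' ^ (ν + 1) = 0)
  (hk : ∀ j p q : ℕ, j + p + q + 2 ≤ n → kerDim X L j p q = kerDim Y L' j p q)

include P Q h hL hL' hk

theorem low_eq (m : ℕ) : ∀ p q : ℕ, p + q = m → m + 2 ≤ n → X.h p q = Y.h p q := by
  induction m using Nat.strong_induction_on with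
  | _ m ih =>
    intro p q hpq hm
    by_cases hj : n - 2 - m ≤ ν
    · have h1 := (rk_sums P Q h hj (a := p + 1) (b := q + 1) (by omega)).1
      have h2 : ∀ i ∈ Finset.range n, i ≠ 0 →
          rk X L (n - 2 - m) (((p + 1 : ℕ) : ℤ) - 1 - 2 * i) (((q + 1 : ℕ) : ℤ) - 1 - 2 * i) =
          rk Y L' (n - 2 - m) (((p + 1 : ℕ) : ℤ) - 1 - 2 * i) (((q + 1 : ℕ) : ℤ) - 1 - 2 * i) := by
        intro i _ hi
        by_cases hneg : (p : ℤ) - 2 * i < 0 ∨ (q : ℤ) - 2 * i < 0
        · rw [rk_neg _ _ _ (by push_cast; omega), rk_neg _ _ _ (by push_cast; omega)]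
        · have e1 : (((p + 1 : ℕ) : ℤ) - 1 - 2 * i) = ((p - 2 * i : ℕ) : ℤ) := by omega
          have e2 : (((q + 1 : ℕ) : ℤ) - 1 - 2 * i) = ((q - 2 * i : ℕ) : ℤ) := by omega
          rw [e1, e2]
          have h3 := ih (p - 2 * i + (q - 2 * i)) (by omega) (p - 2 * i) (q - 2 * i) rfl (by omega)
          have h4 := hk (n - 2 - m) (p - 2 * i) (q - 2 * i) (by omega)
          have h5 := rk_add_kerDim X L (n - 2 - m) ((p - 2 * i : ℕ) : ℤ) ((q - 2 * i : ℕ) : ℤ)
          have h6 := rk_add_kerDim Y L' (n - 2 - m) ((p - 2 * i : ℕ) : ℤ) ((q - 2 * i : ℕ) : ℤ)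
          omega
      have h0 : (0 : ℕ) ∈ Finset.range n := by
        rw [Finset.mem_range]; omega
      rw [← Finset.add_sum_erase _ _ h0, ← Finset.add_sum_erase (Finset.range n) (fun i : ℕ =>
        rk Y L' (n - 2 - m) (((p + 1 : ℕ) : ℤ) - 1 - 2 * i) (((q + 1 : ℕ) : ℤ) - 1 - 2 * i)) h0,
        Finset.sum_congr rfl (fun i hi => h2 i (Finset.mem_of_mem_erase hi)
          (Finset.ne_of_mem_erase hi))] at h1
      have h3 := add_right_cancel h1
      have e1 : (((p + 1 : ℕ) : ℤ) - 1 - 2 * ((0 : ℕ) : ℤ)) = (p : ℤ) := by push_cast; ring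
      have e2 : (((q + 1 : ℕ) : ℤ) - 1 - 2 * ((0 : ℕ) : ℤ)) = (q : ℤ) := by push_cast; ring
      rw [e1, e2] at h3
      have h4 := hk (n - 2 - m) p q (by omega)
      have h5 := rk_add_kerDim X L (n - 2 - m) p q
      have h6 := rk_add_kerDim Y L' (n - 2 - m) p q
      omega
    · have h1 := hk (n - 2 - m) p q (by omega)
      rwa [kerDim_top hL (by omega), kerDim_top hL' (by omega)] at h1

theorem defect_main (p q : ℤ) : X.h p q = Y.h p q := by
  have hlow := low_eq P Q h hL hL' hk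
  have hlow' : ∀ p q : ℤ, p + q + 2 ≤ n → X.h p q = Y.h p q := by
    intro p q hpq
    by_cases hneg : p < 0 ∨ q < 0
    · rw [X.h_neg hneg, Y.h_neg hneg]
    obtain ⟨p', rfl⟩ := Int.eq_ofNat_of_zero_le (show 0 ≤ p by omega)
    obtain ⟨q', rfl⟩ := Int.eq_ofNat_of_zero_le (show 0 ≤ q by omega)
    exact hlow (p' + q') p' q' rfl (by omega)
  -- degree `n - 1`
  have hm1 : ∀ p q : ℤ, p + q + 1 = n → X.h p q = Y.h p q := by
    intro p q hpq
    have h1 := Φ.total_all p q (Finset.Icc (-(n : ℤ) - 1) (n + 1)) (by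
      intro k hk
      rw [Finset.mem_Icc] at hk
      omega)
    have m0 : (0 : ℤ) ∈ Finset.Icc (-(n : ℤ) - 1) (n + 1) := by rw [Finset.mem_Icc]; omega
    have m1 : (1 : ℤ) ∈ (Finset.Icc (-(n : ℤ) - 1) (n + 1)).erase 0 := by
      rw [Finset.mem_erase, Finset.mem_Icc]; omega
    have hs : ∀ Z : KRing n, ∀ k : ℤ, 1 ≤ k → Z.h (p + k) (q + k) = Z.h (p + 1 - k) (q + 1 - k) := by
      intro Z k hk
      have h2 := Z.h_symm (p := p + 1 - k) (q := q + 1 - k) (2 * k - 1).toNat (by omega)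
      have e : (((2 * k - 1).toNat : ℕ) : ℤ) = 2 * k - 1 := by omega
      rw [e] at h2
      have e1 : p + 1 - k + (2 * k - 1) = p + k := by ring
      have e2 : q + 1 - k + (2 * k - 1) = q + k := by ring
      rw [e1, e2] at h2
      exact h2.symm
    rw [← Finset.add_sum_erase _ _ m0, ← Finset.add_sum_erase _ _ m1,
      ← Finset.add_sum_erase (Finset.Icc (-(n : ℤ) - 1) (n + 1)) (fun k => Y.h (p + k) (q + k)) m0,
      ← Finset.add_sum_erase ((Finset.Icc (-(n : ℤ) - 1) (n + 1)).erase 0)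
        (fun k => Y.h (p + k) (q + k)) m1] at h1
    have h2 : ∑ k ∈ ((Finset.Icc (-(n : ℤ) - 1) (n + 1)).erase 0).erase 1, X.h (p + k) (q + k) =
        ∑ k ∈ ((Finset.Icc (-(n : ℤ) - 1) (n + 1)).erase 0).erase 1, Y.h (p + k) (q + k) := by
      refine Finset.sum_congr rfl fun k hk => ?_
      rw [Finset.mem_erase, Finset.mem_erase] at hk
      by_cases hk0 : k < 0
      · exact hlow' _ _ (by omega)
      · rw [hs X k (by omega), hs Y k (by omega)]
        exact hlow' _ _ (by omega)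
    rw [h2] at h1
    have h3 := hs X 1 le_rfl
    have h4 := hs Y 1 le_rfl
    have e1 : p + 1 - 1 = p := by ring
    have e2 : q + 1 - 1 = q := by ring
    rw [e1, e2] at h3 h4
    simp only [add_zero] at h1
    omega
  -- degree `n`
  have hm0 : ∀ p q : ℤ, p + q = n → X.h p q = Y.h p q := by
    intro p q hpq
    by_cases hneg : p < 0 ∨ q < 0
    · rw [X.h_neg hneg, Y.h_neg hneg]
    obtain ⟨p', rfl⟩ := Int.eq_ofNat_of_zero_le (show 0 ≤ p by omega)
    obtain ⟨q', rfl⟩ := Int.eq_ofNat_of_zero_le (show 0 ≤ q by omega)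
    have h1 := (Φ.hodge_sums p' q' (by omega)).2
    have h2 : ∑ i ∈ Finset.range n, X.h ((p' : ℤ) - 2 - 2 * (i : ℤ)) ((q' : ℤ) - 2 - 2 * (i : ℤ)) =
        ∑ i ∈ Finset.range n, Y.h ((p' : ℤ) - 2 - 2 * (i : ℤ)) ((q' : ℤ) - 2 - 2 * (i : ℤ)) :=
      Finset.sum_congr rfl fun i _ => hlow' _ _ (by omega)
    omega
  have hle : ∀ p q : ℤ, p + q ≤ n → X.h p q = Y.h p q := by
    intro p q hpq
    rcases lt_or_ge (p + q + 1) n with h1 | h1
    · exact hlow' p q (by omega)
    · rcases eq_or_lt_of_le hpq with h2 | h2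
      · exact hm0 p q h2
      · exact hm1 p q (by omega)
  rcases le_or_gt (p + q) n with h1 | h1
  · exact hle p q h1
  · have hs : ∀ Z : KRing n, Z.h p q = Z.h (n - q) (n - p) := by
      intro Z
      have h2 := Z.h_symm (p := n - q) (q := n - p) (p + q - n).toNat (by omega)
      have e : (((p + q - n).toNat : ℕ) : ℤ) = p + q - n := by omega
      rw [e] at h2
      have e1 : (n : ℤ) - q + (p + q - n) = p := by ring
      have e2 : (n : ℤ) - p + (p + q - n) = q := by ring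
      rw [e1, e2] at h2
      exact h2.symm
    rw [hs X, hs Y]
    exact hle _ _ (by omega)

end

end Run7.h30
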