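import Pool.Agent.R929.DH.Defs

/-!
# Pull-backs of ample classes: definitions
-/

set_option autoImplicit false

namespace Run7.h30

open Module Pool.Agent.W539.DI

variable {n : ℕ}

/-- The real class `L` of type `(1, 1)` has the cohomological properties of the pull-back of an ample
class under a morphism `f` from `X` onto a projective variety `B` of dimension `ν`. Let `S` be the
intersection of `j ≤ ν` general members of `|m L|`, `m` large, a smooth subvariety of dimension
`n - j`. The kernel of the restriction `H (X) → H (S)` is the annihilator of `L ^ j`, and the image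
is the invariant part of the cohomology of `S`, which satisfies the hard Lefschetz theorem
(`hl_inj`, `hl_surj`) and the Hodge-Riemann relations (`hr`). A holomorphic `q`-form which vanishes
on the preimages of the `q`-dimensional linear sections of `B` is zero (`hol`). -/
structure PullbackAmple (X : KRing n) (L : X.R) (ν : ℕ) : Prop where
  mem : L ∈ X.H (1, 1)
  real : X.bar L = L
  pow_ne : L ^ ν ≠ 0
  hl_inj : ∀ (j k : ℕ) (p q : ℤ), j ≤ ν → p + q + k + j = n → ∀ x ∈ X.H (p, q),
    L ^ j * (X.ω ^ k * x) = 0 → L ^ j * x = 0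
  hl_surj : ∀ (j k : ℕ) (p q : ℤ), j ≤ ν → p + q + k + j = n → ∀ y ∈ X.H (p + k, q + k),
    ∃ x ∈ X.H (p, q), L ^ j * (X.ω ^ k * x) = L ^ j * y
  hr : ∀ (j k : ℕ) (p q : ℤ), j ≤ ν → p + q + k + j = n → ∀ x ∈ X.H (p, q), L ^ j * x ≠ 0 →
    L ^ j * (X.ω ^ (k + 1) * x) = 0 →
    ∃ r : ℝ, 0 < r ∧ Complex.I ^ (p - q) * (-1 : ℂ) ^ ((p + q) * (p + q - 1) / 2) *
      X.tr (L ^ j * (X.ω ^ k * (x * X.bar x))) = (r : ℂ)
  hol : ∀ q : ℕ, q ≤ ν → ∀ x ∈ X.H (q, 0), L ^ (ν - q) * x = 0 → x = 0

/-- The rank of the multiplication by `L ^ j` on the classes of type `(p, q)`. -/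
noncomputable def rk (X : KRing n) (L : X.R) (j : ℕ) (p q : ℤ) : ℕ :=
  finrank ℂ (Submodule.map (LinearMap.mulLeft ℂ (L ^ j)) (X.H (p, q)))

end Run7.h30
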