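import Pool.Agent.Results.MP_e09b14_ag.AbelianCovers

/-!
# Adjoint classes of branched abelian covers

Common part of the results on the conjectures of Fujita for smooth abelian covers.
-/

set_option autoImplicit false

namespace Pool.Agent.Run7.h30.FJ

open MvPolynomial Pool.Agent.Results.MP_e09b14_ag.AbelianCovers Pool.Agent.K3h47.FU

variable {N N' c r n : ℕ}

/-- The class `(κ, e - 1) + A_1 + … + A_m + B`: if `K_T = Ω + κ H`, then `π^* Ω` plus it is
`K_X + A_1 + … + A_m + B`. -/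
def adjoint (D : Cover N N' c r n) (κ : ℤ) {m : ℕ} (A : Fin m → ℤ × (Fin r → ℤ))
    (B : ℤ × (Fin r → ℤ)) : ℤ × (Fin r → ℤ) :=
  (κ, fun i => (D.e i : ℤ) - 1) + ∑ j, A j + B

theorem degree_add (δ e : Fin r → ℕ) (ρ σ : ℤ × (Fin r → ℤ)) :
    degree δ e (ρ + σ) = degree δ e ρ + degree δ e σ := by
  simp only [degree, Prod.fst_add, Prod.snd_add, Pi.add_apply]
  push_cast
  simp only [add_mul, Finset.sum_add_distrib]
  ring

theorem degree_zero (δ e : Fin r → ℕ) : degree δ e 0 = 0 := by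
  simp [degree]

theorem degree_sum (δ e : Fin r → ℕ) {m : ℕ} (A : Fin m → ℤ × (Fin r → ℤ)) :
    degree δ e (∑ j, A j) = ∑ j, degree δ e (A j) := by
  classical
  induction m with
  | zero => simp [degree_zero]
  | succ m ih => rw [Fin.sum_univ_succ, Fin.sum_univ_succ, degree_add, ih]

theorem int_mul (D : Cover N N' c r n) {M : ℕ} (hd : ∀ j, D.e j ∣ M * D.δ j)
    (A : ℤ × (Fin r → ℤ)) : ∃ a : ℤ, (M : ℚ) * degree D.δ D.e A = a := by
  choose w hw using hd
  refine ⟨M * A.1 + ∑ i, A.2 i * w i, ?_⟩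
  rw [degree, mul_add, Finset.mul_sum, Int.cast_add, Int.cast_sum, Int.cast_mul,
    Int.cast_natCast]
  congr 1
  refine Finset.sum_congr rfl fun i _ => ?_
  rw [Int.cast_mul, Int.cast_natCast]
  have h1 : (M : ℚ) * D.δ i = D.e i * w i := by exact_mod_cast hw i
  have h2 : (D.e i : ℚ) ≠ 0 := by exact_mod_cast (D.dat.neZero i).ne
  field_simp
  linear_combination (A.2 i : ℚ) * h1

/-- The lower bound of the degree. -/
theorem bound (D : Cover N N' c r n) {M : ℕ} (hM : M ≠ 0) (hd : ∀ j, D.e j ∣ M * D.δ j)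
    (κ : ℤ) {m : ℕ} (A : Fin m → ℤ × (Fin r → ℤ)) (hA : ∀ j, 0 < degree D.δ D.e (A j))
    (B : ℤ × (Fin r → ℤ)) (hB : 0 ≤ degree D.δ D.e B) :
    (M : ℚ) * κ + m ≤ M * bet D.δ D.e (adjoint D κ A B) := by
  have hMpos : (0 : ℚ) < M := by exact_mod_cast Nat.pos_of_ne_zero hM
  have hbet : bet D.δ D.e (adjoint D κ A B) =
      κ + (∑ j, degree D.δ D.e (A j) + degree D.δ D.e B) := by
    rw [← degree_sum, ← degree_add]
    have h1 : (adjoint D κ A B).1 = κ + (∑ j, A j + B).1 := by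
      rw [adjoint, add_assoc]; rfl
    have h2 : ∀ i, (adjoint D κ A B).2 i = ((D.e i : ℤ) - 1) + (∑ j, A j + B).2 i := by
      intro i; rw [adjoint, add_assoc]; rfl
    rw [bet, degree, h1]
    have h3 : ∑ i, (((adjoint D κ A B).2 i : ℚ) - (D.e i - 1)) * (D.δ i / D.e i) =
        ∑ i, ((∑ j, A j + B).2 i : ℚ) * (D.δ i / D.e i) := by
      refine Finset.sum_congr rfl fun i _ => ?_
      rw [h2]
      push_cast
      ring
    rw [h3]
    push_cast
    ring
  have h1 : ∀ j, (1 : ℚ) ≤ M * degree D.δ D.e (A j) := by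
    intro j
    obtain ⟨a, ha⟩ := int_mul D hd (A j)
    have h1 : (0 : ℚ) < a := by rw [← ha]; exact mul_pos hMpos (hA j)
    have h2 : (1 : ℤ) ≤ a := by exact_mod_cast h1
    rw [ha]
    exact_mod_cast h2
  have h2 : (m : ℚ) ≤ ∑ j, M * degree D.δ D.e (A j) := by
    calc (m : ℚ) = ∑ _j : Fin m, (1 : ℚ) := by simp
      _ ≤ _ := Finset.sum_le_sum fun j _ => h1 j
  rw [hbet, mul_add, mul_add, Finset.mul_sum]
  have h3 : 0 ≤ (M : ℚ) * degree D.δ D.e B := mul_nonneg hMpos.le hB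
  linarith

end Pool.Agent.Run7.h30.FJ
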