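import Pool.Agent.Run7.h30.FiveDefs

set_option autoImplicit false

namespace Run7.h30

open Finset Polynomial Pool.Agent.W539.DI
open scoped Polynomial.Bivariate

theorem evalEval_map (H : ℚ[X][Y]) (s t : ℚ) :
    H.evalEval s t = (H.map (Polynomial.evalRingHom s)).eval t := by
  unfold Polynomial.evalEval
  rw [Polynomial.eval_map, ← Polynomial.coe_evalRingHom s, Polynomial.eval, Polynomial.hom_eval₂]
  simp

theorem zero_of (H : ℚ[X][Y]) (S : Set ℚ) (hS : S.Infinite)
    (h : ∀ s ∈ S, {t : ℚ | H.evalEval s t = 0}.Infinite) (x y : ℚ) : H.evalEval x y = 0 := by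
  have h1 : ∀ s ∈ S, H.evalEval s y = 0 := by
    intro s hs
    rw [evalEval_map]
    have h2 : H.map (Polynomial.evalRingHom s) = 0 := by
      apply Polynomial.eq_of_infinite_eval_eq
      convert h s hs using 3
      rw [evalEval_map, Polynomial.eval_zero]
    rw [h2, Polynomial.eval_zero]
  have h3 : H.eval (C y) = 0 := by
    apply Polynomial.eq_of_infinite_eval_eq
    apply hS.mono
    intro s hs
    have := h1 s hs
    simpa [Polynomial.evalEval] using this
  unfold Polynomial.evalEval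
  rw [h3, Polynomial.eval_zero]

/-- the Euler numbers of the divisors as a polynomial -/
noncomputable def eulPoly (n : ℕ) (N : ℕ → ℕ → ℚ) : ℚ[X][Y] :=
  ∑ m ∈ range (n + 1), C (C ((-1 : ℚ) ^ m)) *
    ∑ jk ∈ antidiagonal (m + 1), C (C (((m + 1).choose jk.1 : ℚ) * N jk.1 jk.2) * X ^ jk.1) *
      X ^ jk.2

theorem eulPoly_eval (n : ℕ) (N : ℕ → ℕ → ℚ) (s t : ℚ) : (eulPoly n N).evalEval s t =
    ∑ m ∈ range (n + 1), (-1 : ℚ) ^ m *
      ∑ jk ∈ antidiagonal (m + 1), ((m + 1).choose jk.1 : ℚ) * s ^ jk.1 * t ^ jk.2 *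
        N jk.1 jk.2 := by
  unfold eulPoly Polynomial.evalEval
  simp only [Polynomial.eval_finsetSum, Polynomial.eval_mul, Polynomial.eval_C, Polynomial.eval_pow,
    Polynomial.eval_X]
  refine Finset.sum_congr rfl fun m _ => ?_
  congr 1
  refine Finset.sum_congr rfl fun jk _ => ?_
  ring

theorem chi_congr {n : ℕ} {V W : KRing n} (h : ∀ p q : ℤ, V.h p q = W.h p q) : chi V = chi W := by
  unfold chi
  simp only [h]

theorem euler_congr {n : ℕ} {V W : KRing n} (h : ∀ p q : ℤ, V.h p q = W.h p q) :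
    euler V = euler W := by
  unfold euler
  simp only [h]

section

variable {n : ℕ} {V W : KRing (n + 1)} {N : Numbers V} {N' : Numbers W}

/-- the part of the proof which uses the Hilbert polynomials -/
theorem chi_eq (hn : Odd (n + 1)) {S : Set ℤ} {T : ℤ → Set ℤ} (hS : S.Infinite)
    (hT : ∀ s ∈ S, (T s).Infinite)
    (h : ∀ s ∈ S, ∀ t ∈ T s, N.hilb.evalEval 0 0 - N.hilb.evalEval (-(s : ℚ)) (-(t : ℚ)) =
      N'.hilb.evalEval 0 0 - N'.hilb.evalEval (-(s : ℚ)) (-(t : ℚ))) : chi V = chi W := by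
  set δ : ℚ := N.hilb.evalEval 0 0 - N'.hilb.evalEval 0 0 with hδ
  set H : ℚ[X][Y] := N.hilb - N'.hilb - C (C δ) with hH
  have hev : ∀ x y : ℚ, H.evalEval x y = N.hilb.evalEval x y - N'.hilb.evalEval x y - δ := by
    intro x y
    rw [hH]
    simp [Polynomial.evalEval]
  have hinj : Function.Injective (fun s : ℤ => (-(s : ℚ))) := by
    intro a b hab
    have : (-(a : ℚ)) = -(b : ℚ) := hab
    exact_mod_cast neg_injective this
  have h1 := zero_of H ((fun s : ℤ => (-(s : ℚ))) '' S) (hS.image hinj.injOn) (by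
    rintro _ ⟨s, hs, rfl⟩
    apply ((hT s hs).image hinj.injOn).mono
    rintro _ ⟨t, ht, rfl⟩
    have h2 := h s hs t ht
    show H.evalEval (-(s : ℚ)) (-(t : ℚ)) = 0
    rw [hev, hδ]
    linarith) (1 / 2) 0
  have h3 : ∀ {U : KRing (n + 1)} (M : Numbers U), M.hilb.evalEval (1 / 2) 0 = 0 := by
    intro U M
    have h4 := M.serre (1 / 2) 0
    rw [Odd.neg_one_pow hn] at h4
    norm_num at h4
    norm_num
    linarith
  rw [hev, h3, h3] at h1
  have h5 : N.hilb.evalEval 0 0 = N'.hilb.evalEval 0 0 := by linarith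
  rw [N.hilb_zero, N'.hilb_zero] at h5
  exact_mod_cast h5

/-- the part of the proof which uses the Euler numbers -/
theorem num_eq {S : Set ℤ} {T : ℤ → Set ℤ} (hS : S.Infinite) (hT : ∀ s ∈ S, (T s).Infinite)
    (h : ∀ s ∈ S, ∀ t ∈ T s, (eulPoly n N.num).evalEval (s : ℚ) (t : ℚ) =
      (eulPoly n N'.num).evalEval (s : ℚ) (t : ℚ)) : N.num 1 0 = N'.num 1 0 := by
  set H : ℚ[X][Y] := eulPoly n N.num - eulPoly n N'.num with hH
  have hev : ∀ x y : ℚ, H.evalEval x y =
      (eulPoly n N.num).evalEval x y - (eulPoly n N'.num).evalEval x y := by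
    intro x y
    rw [hH]
    simp [Polynomial.evalEval]
  have hinj : Function.Injective (fun s : ℤ => (s : ℚ)) := Int.cast_injective
  have h1 : ∀ x : ℚ, H.evalEval x 0 = 0 := fun x =>
    zero_of H ((fun s : ℤ => (s : ℚ)) '' S) (hS.image hinj.injOn) (by
      rintro _ ⟨s, hs, rfl⟩
      apply ((hT s hs).image hinj.injOn).mono
      rintro _ ⟨t, ht, rfl⟩
      have h2 := h s hs t ht
      show H.evalEval (s : ℚ) (t : ℚ) = 0
      rw [hev, h2, sub_self]) x 0
  -- the value at `t = 0`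
  have h0 : ∀ (M : ℕ → ℕ → ℚ) (x : ℚ), (eulPoly n M).evalEval x 0 =
      (∑ m ∈ range (n + 1), C ((-1 : ℚ) ^ m * M (m + 1) 0) * X ^ (m + 1) : ℚ[X]).eval x := by
    intro M x
    rw [eulPoly_eval]
    simp only [Polynomial.eval_finsetSum, Polynomial.eval_mul, Polynomial.eval_C,
      Polynomial.eval_pow, Polynomial.eval_X]
    refine Finset.sum_congr rfl fun m _ => ?_
    rw [Finset.sum_eq_single (m + 1, 0)]
    · simp
      ring
    · rintro ⟨a, b⟩ hab hne
      rw [HasAntidiagonal.mem_antidiagonal] at hab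
      have hb : b ≠ 0 := by
        rintro rfl
        apply hne
        simp only [add_zero] at hab
        rw [hab]
      simp [hb]
    · intro hm
      exfalso
      apply hm
      rw [HasAntidiagonal.mem_antidiagonal]
      rfl
  have h2 : (∑ m ∈ range (n + 1), C ((-1 : ℚ) ^ m * N.num (m + 1) 0) * X ^ (m + 1) : ℚ[X]) =
      ∑ m ∈ range (n + 1), C ((-1 : ℚ) ^ m * N'.num (m + 1) 0) * X ^ (m + 1) := by
    apply Polynomial.funext
    intro x
    have := h1 x
    rw [hev, h0, h0] at this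
    linarith
  have h3 := congrArg (fun p : ℚ[X] => p.coeff 1) h2
  simp only [Polynomial.finsetSum_coeff, Polynomial.coeff_C_mul, Polynomial.coeff_X_pow] at h3
  rw [Finset.sum_eq_single 0, Finset.sum_eq_single 0] at h3
  · simpa using h3
  · intro m _ hm
    simp [hm]
  · intro h; simp at h
  · intro m _ hm
    simp [hm]
  · intro h; simp at h

end

theorem corresponding {V W : KRing 5} {N : Numbers V} {N' : Numbers W}
    (h : HaveEquivalentDivisors N N') : chi V = chi W ∧ N.num 1 0 = N'.num 1 0 := by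
  obtain ⟨S, T, hS, hT, h⟩ := h
  constructor
  · refine chi_eq (N := N) (N' := N') (by decide) hS hT fun s hs t ht => ?_
    obtain ⟨ι, _, D, D', hD, hD', hi⟩ := h s hs t ht
    rw [← hD.chi, ← hD'.chi]
    congr 1
    refine Finset.sum_congr rfl fun i _ => ?_
    obtain ⟨⟨Φ⟩, h10⟩ := hi i
    exact chi_congr (Φ.four_all h10)
  · refine num_eq hS hT fun s hs t ht => ?_
    obtain ⟨ι, _, D, D', hD, hD', hi⟩ := h s hs t ht
    rw [eulPoly_eval, eulPoly_eval, ← hD.euler, ← hD'.euler]
    congr 1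
    refine Finset.sum_congr rfl fun i _ => ?_
    obtain ⟨⟨Φ⟩, h10⟩ := hi i
    exact euler_congr (Φ.four_all h10)

end Run7.h30
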