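import Pool.Agent.W539.DI.Cor

/-!
# Numerical invariants of varieties and of the divisors in `|ω ^ s ⊗ L ^ t|`: definitions
-/

set_option autoImplicit false

namespace Run7.h30

open Finset Polynomial Pool.Agent.W539.DI
open scoped Polynomial.Bivariate

variable {n : ℕ}

/-- The Euler characteristic `χ (𝒪) = ∑ (-1) ^ q h^{0,q}`. -/
noncomputable def chi (X : KRing n) : ℤ := ∑ q ∈ range (n + 1), (-1) ^ q * (X.h 0 q : ℤ)

/-- The topological Euler number `∑ (-1) ^ (p + q) h^{p,q}`. -/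
noncomputable def euler (X : KRing n) : ℤ :=
  ∑ p ∈ range (n + 1), ∑ q ∈ range (n + 1), (-1) ^ (p + q) * (X.h p q : ℤ)

/-- The sum `∑ (-1) ^ (p + q) (2 p - n) ^ 2 h^{p,q}`. -/
noncomputable def moment (X : KRing n) : ℤ :=
  ∑ p ∈ range (n + 1), ∑ q ∈ range (n + 1),
    (-1) ^ (p + q) * (2 * (p : ℤ) - n) ^ 2 * (X.h p q : ℤ)

/-- Numerical invariants of a smooth projective variety `X` of dimension `n` with canonical bundle
`ω` of class `K` and a line bundle `L`, with Chern classes `c_i` and the cohomology described by `V`. -/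
structure Numbers (V : KRing n) where
  /-- the polynomial in two variables with `χ (X, ω ^ s ⊗ L ^ t) = hilb (s, t)` -/
  hilb : ℚ[X][Y]
  hilb_zero : hilb.evalEval 0 0 = (chi V : ℚ)
  /-- Serre duality -/
  serre : ∀ s t : ℚ, hilb.evalEval (1 - s) (-t) = (-1) ^ n * hilb.evalEval s t
  /-- the intersection numbers `K ^ j L ^ k c_(n - j - k)`, `j + k ≤ n` -/
  num : ℕ → ℕ → ℚ
  /-- the theorem of Libgober and Wood,
  `∑ (-1) ^ (p + q) (p - n / 2) ^ 2 h^{p,q} = (n / 12) c_n + (1 / 6) c_1 c_(n - 1)` -/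
  libgoberWood : (moment V : ℚ) / 4 = n / 12 * (euler V : ℚ) + 1 / 6 * (-num 1 0)

/-- The invariants of a smooth divisor `D` of `X` in the linear system `|ω ^ s ⊗ L ^ t|`, with
connected components `D i`. The empty divisor is allowed (if `ω ^ s ⊗ L ^ t` is trivial). -/
structure IsDivisor {V : KRing (n + 1)} (N : Numbers V) (s t : ℤ) {ι : Type} [Fintype ι]
    (D : ι → KRing n) : Prop where
  /-- `χ (𝒪_D) = χ (𝒪_X) - χ (𝒪_X (-D))` -/
  chi : ((∑ i, chi (D i) : ℤ) : ℚ) = N.hilb.evalEval 0 0 - N.hilb.evalEval (-(s : ℚ)) (-(t : ℚ))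
  /-- the Euler number of `D` is `∫ (D c_n (X) - D ^ 2 c_(n - 1) (X) + ...)`, as
  `c (D) = c (X) / (1 + D)`, where `D = s K + t L` -/
  euler : ((∑ i, euler (D i) : ℤ) : ℚ) = ∑ m ∈ range (n + 1), (-1 : ℚ) ^ m *
    ∑ jk ∈ antidiagonal (m + 1), ((m + 1).choose jk.1 : ℚ) * s ^ jk.1 * t ^ jk.2 * N.num jk.1 jk.2

/-- There are smooth divisors `D ∈ |ω_X ^ s ⊗ L_X ^ t|` and `D' ∈ |ω_Y ^ s ⊗ L_Y ^ t|`, for infinitely
many `s` and, given `s`, for infinitely many `t`, whose connected components have equivalent derived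
categories: `FM (D i) (D' i)`, and have the same number of holomorphic one-forms. -/
def HaveEquivalentDivisors {V W : KRing (n + 1)} (N : Numbers V) (N' : Numbers W) : Prop :=
  ∃ (S : Set ℤ) (T : ℤ → Set ℤ), S.Infinite ∧ (∀ s ∈ S, (T s).Infinite) ∧
    ∀ s ∈ S, ∀ t ∈ T s, ∃ (ι : Type) (_ : Fintype ι) (D D' : ι → KRing n),
      IsDivisor N s t D ∧ IsDivisor N' s t D' ∧
      ∀ i, Nonempty (FM (D i) (D' i)) ∧ (D i).h 1 0 = (D' i).h 1 0

end Run7.h30
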