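import Pool.Agent.Run7.h30.Five

set_option autoImplicit false

namespace Run7.h30

open Finset Pool.Agent.W539.DI

theorem five_aux (f g : ℕ → ℕ → ℕ)
    (fc : ∀ p q, f p q = f q p) (gc : ∀ p q, g p q = g q p)
    (fd : ∀ p q, p ≤ 5 → q ≤ 5 → f p q = f (5 - q) (5 - p))
    (gd : ∀ p q, p ≤ 5 → q ≤ 5 → g p q = g (5 - q) (5 - p))
    (h00 : f 0 0 = g 0 0) (h10 : f 1 0 = g 1 0)
    (h21 : f 2 1 = g 2 1) (h30 : f 3 0 = g 3 0) (h41 : f 4 1 = g 4 1) (h50 : f 5 0 = g 5 0)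
    (h32 : f 3 2 + 2 * f 1 0 = g 3 2 + 2 * g 1 0)
    (h40 : f 4 0 + f 5 1 = g 4 0 + g 5 1)
    (h20 : f 2 0 + f 3 1 + f 4 2 + f 5 3 = g 2 0 + g 3 1 + g 4 2 + g 5 3)
    (h0 : f 0 0 + f 1 1 + f 2 2 + f 3 3 + f 4 4 + f 5 5 =
      g 0 0 + g 1 1 + g 2 2 + g 3 3 + g 4 4 + g 5 5)
    (hchi : ∑ q ∈ range 6, (-1) ^ q * (f 0 q : ℤ) = ∑ q ∈ range 6, (-1) ^ q * (g 0 q : ℤ))
    (hlw : 3 * ∑ p ∈ range 6, ∑ q ∈ range 6, (-1) ^ (p + q) * (2 * (p : ℤ) - 5) ^ 2 * (f p q : ℤ) -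
      5 * ∑ p ∈ range 6, ∑ q ∈ range 6, (-1) ^ (p + q) * (f p q : ℤ) =
      3 * ∑ p ∈ range 6, ∑ q ∈ range 6, (-1) ^ (p + q) * (2 * (p : ℤ) - 5) ^ 2 * (g p q : ℤ) -
      5 * ∑ p ∈ range 6, ∑ q ∈ range 6, (-1) ^ (p + q) * (g p q : ℤ)) :
    ∀ p q, p ≤ 5 → q ≤ 5 → f p q = g p q := by
  have f1 := fc 1 0
  have f2 := fc 2 0
  have f3 := fc 3 0
  have f4 := fc 4 0
  have f5 := fc 5 0
  have f6 := fc 2 1
  have f7 := fc 3 1
  have f8 := fc 4 1
  have f9 := fc 5 1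
  have f10 := fc 3 2
  have f11 := fc 4 2
  have f12 := fc 5 2
  have f13 := fc 4 3
  have f14 := fc 5 3
  have f15 := fc 5 4
  have g1 := gc 1 0
  have g2 := gc 2 0
  have g3 := gc 3 0
  have g4 := gc 4 0
  have g5 := gc 5 0
  have g6 := gc 2 1
  have g7 := gc 3 1
  have g8 := gc 4 1
  have g9 := gc 5 1
  have g10 := gc 3 2
  have g11 := gc 4 2
  have g12 := gc 5 2
  have g13 := gc 4 3
  have g14 := gc 5 3
  have g15 := gc 5 4
  have f16 : f 5 5 = f 0 0 := fd 5 5 (by norm_num) (by norm_num)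
  have f17 : f 4 4 = f 1 1 := fd 4 4 (by norm_num) (by norm_num)
  have f18 : f 3 3 = f 2 2 := fd 3 3 (by norm_num) (by norm_num)
  have f19 : f 5 4 = f 1 0 := fd 5 4 (by norm_num) (by norm_num)
  have f20 : f 5 3 = f 2 0 := fd 5 3 (by norm_num) (by norm_num)
  have f21 : f 5 2 = f 3 0 := fd 5 2 (by norm_num) (by norm_num)
  have f22 : f 5 1 = f 4 0 := fd 5 1 (by norm_num) (by norm_num)
  have f23 : f 4 3 = f 2 1 := fd 4 3 (by norm_num) (by norm_num)
  have f24 : f 4 2 = f 3 1 := fd 4 2 (by norm_num) (by norm_num)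
  have g16 : g 5 5 = g 0 0 := gd 5 5 (by norm_num) (by norm_num)
  have g17 : g 4 4 = g 1 1 := gd 4 4 (by norm_num) (by norm_num)
  have g18 : g 3 3 = g 2 2 := gd 3 3 (by norm_num) (by norm_num)
  have g19 : g 5 4 = g 1 0 := gd 5 4 (by norm_num) (by norm_num)
  have g20 : g 5 3 = g 2 0 := gd 5 3 (by norm_num) (by norm_num)
  have g21 : g 5 2 = g 3 0 := gd 5 2 (by norm_num) (by norm_num)
  have g22 : g 5 1 = g 4 0 := gd 5 1 (by norm_num) (by norm_num)
  have g23 : g 4 3 = g 2 1 := gd 4 3 (by norm_num) (by norm_num)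
  have g24 : g 4 2 = g 3 1 := gd 4 2 (by norm_num) (by norm_num)
  simp only [sum_range_succ, range_zero, sum_empty, zero_add] at hchi hlw
  norm_num at hchi hlw
  have k40 : f 4 0 = g 4 0 := by omega
  have k32 : f 3 2 = g 3 2 := by omega
  have k20 : f 2 0 = g 2 0 := by omega
  have k31 : f 3 1 = g 3 1 := by omega
  have k1 : f 1 1 = g 1 1 := by omega
  have k2 : f 2 2 = g 2 2 := by omega
  intro p q hp hq
  interval_cases p <;> interval_cases q <;> omega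

theorem symm5 (X : KRing 5) (p q : ℕ) (hp : p ≤ 5) (hq : q ≤ 5) :
    X.h p q = X.h ((5 - q : ℕ) : ℤ) ((5 - p : ℕ) : ℤ) := by
  by_cases h : p + q ≤ 5
  · have h1 := X.h_symm (p := p) (q := q) (5 - p - q) (by push_cast; omega)
    have e1 : ((5 - q : ℕ) : ℤ) = (p : ℤ) + ((5 - p - q : ℕ) : ℤ) := by omega
    have e2 : ((5 - p : ℕ) : ℤ) = (q : ℤ) + ((5 - p - q : ℕ) : ℤ) := by omega
    rw [e1, e2, h1]
  · have h1 := X.h_symm (p := ((5 - q : ℕ) : ℤ)) (q := ((5 - p : ℕ) : ℤ)) (p + q - 5)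
      (by push_cast; omega)
    have e1 : (p : ℤ) = ((5 - q : ℕ) : ℤ) + ((p + q - 5 : ℕ) : ℤ) := by omega
    have e2 : (q : ℤ) = ((5 - p : ℕ) : ℤ) + ((p + q - 5 : ℕ) : ℤ) := by omega
    rw [h1, ← e1, ← e2]

theorem five {X Y : KRing 5} (Φ : FM X Y) (h10 : X.h 1 0 = Y.h 1 0) (hchi : chi X = chi Y)
    (hlw : 3 * moment X - 5 * euler X = 3 * moment Y - 5 * euler Y) (p q : ℤ) :
    X.h p q = Y.h p q := by
  by_cases hout : p < 0 ∨ q < 0 ∨ ((5 : ℕ) : ℤ) < p ∨ ((5 : ℕ) : ℤ) < q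
  · rw [X.h_zero hout, Y.h_zero hout]
  push_cast at hout
  obtain ⟨a1, a2⟩ := Φ.hodge_sums 3 2 rfl
  obtain ⟨b1, b2⟩ := Φ.hodge_sums 4 1 rfl
  have z1 : ∀ Z : KRing 5, Z.h (-1) (-2) = 0 := fun Z => Z.h_neg (by norm_num)
  have z2 : ∀ Z : KRing 5, Z.h 0 (-1) = 0 := fun Z => Z.h_neg (by norm_num)
  have z3 : ∀ Z : KRing 5, Z.h 2 (-1) = 0 := fun Z => Z.h_neg (by norm_num)
  rw [X.sum_first _ _ (by norm_num) (by norm_num), Y.sum_first _ _ (by norm_num) (by norm_num)]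
    at a1 a2 b1 b2
  norm_num at a1 a2 b1 b2
  rw [z3, z3] at b2
  have t5 := Φ.total_all 5 0 {0} (by
    intro k hk
    simp only [Finset.mem_singleton] at hk
    push_cast
    omega)
  have t4 := Φ.total_all 4 0 {0, 1} (by
    intro k hk
    simp only [Finset.mem_insert, Finset.mem_singleton] at hk
    push_cast
    omega)
  have t2 := Φ.total_all 2 0 {0, 1, 2, 3} (by
    intro k hk
    simp only [Finset.mem_insert, Finset.mem_singleton] at hk
    push_cast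
    omega)
  have t0 := Φ.total_all 0 0 {0, 1, 2, 3, 4, 5} (by
    intro k hk
    simp only [Finset.mem_insert, Finset.mem_singleton] at hk
    push_cast
    omega)
  rw [Finset.sum_singleton, Finset.sum_singleton] at t5
  repeat rw [Finset.sum_insert (by decide)] at t4
  repeat rw [Finset.sum_insert (by decide)] at t2
  repeat rw [Finset.sum_insert (by decide)] at t0
  rw [Finset.sum_singleton, Finset.sum_singleton] at t4 t2 t0
  norm_num at t5 t4 t2 t0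
  have h00 : X.h 0 0 = Y.h 0 0 := by rw [X.h00, Y.h00]
  unfold chi at hchi
  unfold moment euler at hlw
  have key := five_aux (fun p q => X.h p q) (fun p q => Y.h p q)
    (fun p q => X.h_swap p q) (fun p q => Y.h_swap p q) (symm5 X) (symm5 Y)
    (by exact_mod_cast h00) (by exact_mod_cast h10) (by exact_mod_cast a1) (by exact_mod_cast b1)
    (by push_cast; omega) (by exact_mod_cast t5)
    (by push_cast; omega) (by push_cast; omega) (by push_cast; omega) (by push_cast; omega)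
    (by exact_mod_cast hchi) (by exact_mod_cast hlw)
  obtain ⟨p', rfl⟩ := Int.eq_ofNat_of_zero_le (show 0 ≤ p by omega)
  obtain ⟨q', rfl⟩ := Int.eq_ofNat_of_zero_le (show 0 ≤ q by omega)
  exact key p' q' (by omega) (by omega)

theorem five_lw {X Y : KRing 5} {N : Numbers X} {N' : Numbers Y} (h : N.num 1 0 = N'.num 1 0) :
    3 * moment X - 5 * euler X = 3 * moment Y - 5 * euler Y := by
  have h1 := N.libgoberWood
  have h2 := N'.libgoberWood
  rw [h] at h1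
  push_cast at h1 h2
  have h3 : 3 * (moment X : ℚ) - 5 * euler X = 3 * (moment Y : ℚ) - 5 * euler Y := by linarith
  exact_mod_cast h3

/-- the main theorem -/
theorem five_main {X Y : KRing 5} (N : Numbers X) (N' : Numbers Y) (Φ : FM X Y)
    (h10 : X.h 1 0 = Y.h 1 0) (h : HaveEquivalentDivisors N N') (p q : ℤ) : X.h p q = Y.h p q := by
  obtain ⟨h1, h2⟩ := corresponding h
  exact five Φ h10 h1 (five_lw h2) p q

end Run7.h30
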