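import Pool.Agent.Run7.h30.QuotK

set_option autoImplicit false

open Module Pool.Agent.W539.DI Pool.Agent.R929.DH

namespace Run7.h30

/-- The dimension of the space of holomorphic `q`-forms `x` on `X` with `L ^ k x = 0`. -/
noncomputable def lowForms {n : ℕ} (X : KRing n) (L : X.R) (k q : ℕ) : ℕ :=
  finrank ℂ (X.H (q, 0) ⊓ LinearMap.ker (LinearMap.mulLeft ℂ (L ^ k)) : Submodule ℂ X.R)

theorem rk_neg {n : ℕ} (X : KRing n) (L : X.R) (j : ℕ) {p q : ℤ} (h : p < 0 ∨ q < 0) :
    rk X L j p q = 0 := by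
  unfold rk
  rw [X.van p q h, Submodule.map_bot, finrank_bot]

variable {n : ℕ} {X Y : KRing n} {L : X.R} {L' : Y.R} {ν : ℕ}

section

variable (P : PullbackAmple X L ν) (Q : PullbackAmple Y L' ν) {Φ : FM X Y}
  (h : Intertwines Φ L L')

include P Q h

theorem rk_sums {j a b : ℕ} (hj : j ≤ ν) (hab : a + b + j = n) :
    (∑ i ∈ Finset.range n, rk X L j (a - 1 - 2 * i) (b - 1 - 2 * i) =
      ∑ i ∈ Finset.range n, rk Y L' j (a - 1 - 2 * i) (b - 1 - 2 * i)) ∧
    (rk X L j a b + 2 * ∑ i ∈ Finset.range n, rk X L j (a - 2 - 2 * i) (b - 2 - 2 * i) =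
      rk Y L' j a b + 2 * ∑ i ∈ Finset.range n, rk Y L' j (a - 2 - 2 * i) (b - 2 - 2 * i)) := by
  have h1 := (quotFM X P hj Q h).hodge_sums a b (by omega)
  simp only [quotK_h] at h1
  have h2 : ∀ {Z : KRing n} {M : Z.R} (_ : PullbackAmple Z M ν) (e : ℤ), 0 < e →
      ∑ i ∈ Finset.range n, rk Z M j (a - e - 2 * i) (b - e - 2 * i) =
      ∑ i ∈ Finset.range (n - j), rk Z M j (a - e - 2 * i) (b - e - 2 * i) := by
    intro Z M R e he
    symm
    apply Finset.sum_subset
    · intro i hi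
      rw [Finset.mem_range] at *
      omega
    · intro i _ hi
      rw [Finset.mem_range] at hi
      exact rk_neg _ _ _ (by omega)
  rw [h2 P 1 (by norm_num), h2 Q 1 (by norm_num), h2 P 2 (by norm_num), h2 Q 2 (by norm_num)]
  exact h1

theorem rk_total {j : ℕ} (hj : j ≤ ν) (p q : ℤ) (s : Finset ℤ)
    (hs : ∀ k, k ∉ s → p + k < 0 ∨ q + k < 0 ∨ (n : ℤ) < p + k + j ∨ (n : ℤ) < q + k + j) :
    ∑ k ∈ s, rk X L j (p + k) (q + k) = ∑ k ∈ s, rk Y L' j (p + k) (q + k) := by
  have hν := le_of_pow_ne X P.mem P.pow_ne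
  have h1 := (quotFM X P hj Q h).total_all p q s (by
    intro k hk
    have := hs k hk
    omega)
  simpa only [quotK_h] using h1

theorem rk_edge {q : ℕ} (hq : q + 2 ≤ n) (hν : n ≤ ν + q + 2) :
    rk X L (n - 2 - q) q 0 = rk Y L' (n - 2 - q) q 0 := by
  have hj : n - 2 - q ≤ ν := by omega
  have h1 := ((quotFM X P hj Q h).edge (by omega)).1
  simp only [quotK_h] at h1
  have e : (((n - (n - 2 - q) : ℕ) : ℤ) - 2) = q := by omega
  rw [e] at h1
  exact h1

end

theorem rk_add_lowForms (X : KRing n) (L : X.R) (k q : ℕ) :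
    rk X L k q 0 + lowForms X L k q = X.h q 0 := by
  unfold rk lowForms KRing.h
  set f : X.H (q, 0) →ₗ[ℂ] X.R := (LinearMap.mulLeft ℂ (L ^ k)) ∘ₗ (X.H (q, 0)).subtype with hf
  have h1 := LinearMap.finrank_range_add_finrank_ker f
  have h2 : LinearMap.range f = Submodule.map (LinearMap.mulLeft ℂ (L ^ k)) (X.H (q, 0)) := by
    rw [hf, LinearMap.range_comp, Submodule.range_subtype]
  have h3 : finrank ℂ (LinearMap.ker f) =
      finrank ℂ (X.H (q, 0) ⊓ LinearMap.ker (LinearMap.mulLeft ℂ (L ^ k)) : Submodule ℂ X.R) := by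
    rw [hf, LinearMap.ker_comp, ← Submodule.map_comap_subtype]
    exact (Submodule.equivMapOfInjective _ (Submodule.injective_subtype _) _).finrank_eq
  rw [h2, h3] at h1
  exact h1

theorem lowForms_zero (P : PullbackAmple X L ν) {k q : ℕ} (h : k + q ≤ ν) :
    lowForms X L k q = 0 := by
  unfold lowForms
  rw [Submodule.finrank_eq_zero, Submodule.eq_bot_iff]
  intro x hx
  rw [Submodule.mem_inf, LinearMap.mem_ker, LinearMap.mulLeft_apply] at hx
  apply P.hol q (by omega) x hx.1
  have : ν - q = (ν - q - k) + k := by omega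
  rw [this, pow_add, mul_assoc, hx.2, mul_zero]

/-- the top two cases -/
theorem top_forms (Φ : FM X Y) {q : ℕ} (hq : n ≤ q + 1) : X.h q 0 = Y.h q 0 := by
  by_cases h1 : n < q
  · rw [X.h_zero (by omega), Y.h_zero (by omega)]
  by_cases h2 : n = q
  · have h3 := Φ.total_all q 0 {0} (by
      intro k hk
      simp only [Finset.mem_singleton] at hk
      omega)
    simpa using h3
  · have h3 := Φ.total_all q 0 {0, 1} (by
      intro k hk
      simp only [Finset.mem_insert, Finset.mem_singleton] at hk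
      omega)
    rw [Finset.sum_insert (by decide), Finset.sum_insert (by decide), Finset.sum_singleton,
      Finset.sum_singleton] at h3
    have h4 : ∀ Z : KRing n, Z.h ((q : ℤ) + 1) (0 + 1) = Z.h q 0 := fun Z =>
      (Z.h_symm (p := q) (q := 0) 1 (by push_cast; omega)).symm
    rw [h4, h4] at h3
    simp only [add_zero] at h3
    omega

section

variable (P : PullbackAmple X L ν) (Q : PullbackAmple Y L' ν) {Φ : FM X Y}
  (h : Intertwines Φ L L')

include P Q h

/-- fibres of dimension at most three -/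
theorem forms (hn : n ≤ ν + 3)
    (hb : n = ν + 3 → ∀ q : ℕ, 1 ≤ q → q ≤ ν →
      lowForms X L (ν + 1 - q) q = lowForms Y L' (ν + 1 - q) q)
    (q : ℤ) : X.h q 0 = Y.h q 0 := by
  by_cases hq0 : q < 0
  · rw [X.h_neg (Or.inl hq0), Y.h_neg (Or.inl hq0)]
  obtain ⟨q, rfl⟩ := Int.eq_ofNat_of_zero_le (not_lt.1 hq0)
  by_cases hq1 : n ≤ q + 1
  · exact top_forms Φ hq1
  by_cases h0 : q = 0
  · subst h0
    exact_mod_cast (X.h00.trans Y.h00.symm)
  have e := rk_edge P Q h (q := q) (by omega) (by omega)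
  rw [← rk_add_lowForms X L (n - 2 - q) q, ← rk_add_lowForms Y L' (n - 2 - q) q, e]
  congr 1
  by_cases h2 : n ≤ ν + 2
  · rw [lowForms_zero P (by omega), lowForms_zero Q (by omega)]
  · have e1 : n - 2 - q = ν + 1 - q := by omega
    rw [e1]
    by_cases h3 : q ≤ ν
    · exact hb (by omega) q (by omega) h3
    · have h4 : ν + 1 - q = 0 := by omega
      have h5 : ∀ {Z : KRing n} (M : Z.R), lowForms Z M 0 q = 0 := by
        intro Z M
        unfold lowForms
        rw [Submodule.finrank_eq_zero, Submodule.eq_bot_iff]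
        intro x hx
        rw [Submodule.mem_inf, LinearMap.mem_ker, LinearMap.mulLeft_apply, pow_zero, one_mul] at hx
        exact hx.2
      rw [h4, h5, h5]

end

end Run7.h30
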