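import Pool.Agent.Run7.h30.FiveMain

set_option autoImplicit false

namespace Run7.h30

open Finset Pool.Agent.W539.DI

variable {n : ℕ}

/-- sums over the square as sums over the diagonals -/
theorem sum_diag (f : ℤ → ℤ → ℤ) (n : ℕ)
    (hf : ∀ p q : ℤ, p < 0 ∨ q < 0 ∨ (n : ℤ) < p ∨ (n : ℤ) < q → f p q = 0) :
    ∑ p ∈ range (n + 1), ∑ q ∈ range (n + 1), f p q =
      ∑ i ∈ Icc (-(n : ℤ)) n, ∑ k ∈ Icc (0 : ℤ) n, f (i + k) (0 + k) := by
  have h1 : ∀ g : ℤ → ℤ, ∑ p ∈ range (n + 1), g p = ∑ p ∈ Icc (0 : ℤ) n, g p := by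
    intro g
    refine Finset.sum_bij (fun (p : ℕ) _ => (p : ℤ)) ?_ ?_ ?_ ?_
    · intro a ha
      rw [mem_range] at ha
      rw [mem_Icc]
      omega
    · intro a _ b _ hab
      exact_mod_cast hab
    · intro b hb
      rw [mem_Icc] at hb
      exact ⟨b.toNat, by rw [mem_range]; omega, by omega⟩
    · intro a _
      rfl
  rw [h1 (fun p => ∑ q ∈ range (n + 1), f p q), Finset.sum_comm (s := Icc (-(n : ℤ)) n)]
  rw [Finset.sum_congr rfl fun p _ => h1 (fun q => f p q), Finset.sum_comm]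
  refine Finset.sum_congr rfl fun k hk => ?_
  rw [mem_Icc] at hk
  rw [zero_add]
  refine Finset.sum_bij_ne_zero (fun p _ _ => p - k) ?_ ?_ ?_ ?_
  · intro p hp _
    rw [mem_Icc] at *
    omega
  · intro p _ _ q _ _ h
    omega
  · intro i hi h
    refine ⟨i + k, ?_, h, by omega⟩
    by_contra hc
    apply h
    apply hf
    rw [mem_Icc] at hc
    omega
  · intro p _ _
    rw [sub_add_cancel]

theorem euler_eq {X Y : KRing n} (Φ : FM X Y) : euler X = euler Y := by
  have h1 : ∀ Z : KRing n, euler Z =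
      ∑ i ∈ Icc (-(n : ℤ)) n, (i.negOnePow : ℤ) * ∑ k ∈ Icc (0 : ℤ) n, (Z.h (i + k) (0 + k) : ℤ) := by
    intro Z
    have h2 := sum_diag (fun p q => ((p - q).negOnePow : ℤ) * (Z.h p q : ℤ)) n (fun p q h => by
      rw [Z.h_zero h]
      simp)
    unfold euler
    trans ∑ p ∈ range (n + 1), ∑ q ∈ range (n + 1), (((p : ℤ) - q).negOnePow : ℤ) * (Z.h p q : ℤ)
    · refine Finset.sum_congr rfl fun p _ => Finset.sum_congr rfl fun q _ => ?_
      congr 1
      have h3 : ((p : ℤ) - q).negOnePow = ((p + q : ℕ) : ℤ).negOnePow := by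
        rw [Int.negOnePow_eq_iff]
        exact ⟨-q, by push_cast; ring⟩
      rw [h3, Int.coe_negOnePow_natCast]
    · refine h2.trans ?_
      refine Finset.sum_congr rfl fun i _ => ?_
      rw [Finset.mul_sum]
      refine Finset.sum_congr rfl fun k _ => ?_
      congr 3
      ring
  rw [h1, h1]
  refine Finset.sum_congr rfl fun i _ => ?_
  congr 1
  have h4 := Φ.total_all i 0 (Icc (0 : ℤ) n) (by
    intro k hk
    rw [mem_Icc] at hk
    omega)
  exact_mod_cast h4

theorem num_corr {V W : KRing (n + 1)} {N : Numbers V} {N' : Numbers W}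
    (h : HaveEquivalentDivisors N N') : N.num 1 0 = N'.num 1 0 := by
  obtain ⟨S, T, hS, hT, h⟩ := h
  refine num_eq hS hT fun s hs t ht => ?_
  obtain ⟨ι, _, D, D', hD, hD', hi⟩ := h s hs t ht
  rw [eulPoly_eval, eulPoly_eval, ← hD.euler, ← hD'.euler]
  congr 1
  refine Finset.sum_congr rfl fun i _ => ?_
  obtain ⟨⟨Φ⟩, -⟩ := hi i
  exact euler_eq Φ

theorem moment_eq {V W : KRing (n + 1)} (N : Numbers V) (N' : Numbers W) (Φ : FM V W)
    (h : HaveEquivalentDivisors N N') : moment V = moment W := by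
  have h1 := N.libgoberWood
  have h2 := N'.libgoberWood
  rw [num_corr h, euler_eq Φ, ← h2] at h1
  have h3 : (moment V : ℚ) = moment W := by linarith
  exact_mod_cast h3

end Run7.h30
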