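import Pool.Agent.Run7.h30.Defs
import Pool.Agent.W539.DI.Cor

set_option autoImplicit false

open scoped ComplexConjugate
open Module Pool.Agent.W539.DI Pool.Agent.R929.DH

namespace Run7.h30

variable {n : ℕ}

section alg

variable (X : KRing n)

theorem pow_comm {L : X.R} (hL : L ∈ X.H (1, 1)) (j : ℕ) (x : X.R) : L ^ j * x = x * L ^ j := by
  induction j with
  | zero => simp
  | succ j ih =>
    rw [pow_succ, mul_assoc, X.central hL x, ← mul_assoc, ih, mul_assoc]

theorem bar_one : X.bar 1 = 1 := by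
  have h : ∀ x, X.bar 1 * x = x := by
    intro x
    conv_lhs => rw [← X.bar_bar x]
    rw [← X.bar_mul, one_mul, X.bar_bar]
  have := h 1
  rwa [mul_one] at this

theorem bar_pow_of {L : X.R} (hr : X.bar L = L) (j : ℕ) : X.bar (L ^ j) = L ^ j := by
  induction j with
  | zero => rw [pow_zero, bar_one]
  | succ j ih => rw [pow_succ, X.bar_mul, ih, hr]

/-- the annihilator of a central element -/
def ann (N : X.R) : Ideal X.R where
  carrier := {x | x * N = 0}
  add_mem' := fun {a b} ha hb => by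
    simp only [Set.mem_ofPred_eq] at *
    rw [add_mul, ha, hb, add_zero]
  zero_mem' := by simp
  smul_mem' := fun c x hx => by
    simp only [Set.mem_ofPred_eq, smul_eq_mul] at *
    rw [mul_assoc, hx, mul_zero]

theorem mem_ann {N x : X.R} : x ∈ ann X N ↔ x * N = 0 := Iff.rfl

theorem ann_two {N : X.R} (hN : ∀ x, N * x = x * N) : (ann X N).IsTwoSided := by
  refine ⟨fun {a} b ha => ?_⟩
  rw [mem_ann] at *
  rw [mul_assoc, ← hN b, ← mul_assoc, ha, zero_mul]

/-- complex conjugation as a ring homomorphism -/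
def barHom : X.R →+* X.R where
  toFun := X.bar
  map_one' := bar_one X
  map_mul' := X.bar_mul
  map_zero' := map_zero _
  map_add' := map_add _

end alg

variable (X : KRing n) {L : X.R} (hL : L ∈ X.H (1, 1)) (j : ℕ)

include hL in
theorem two : (ann X (L ^ j)).IsTwoSided := ann_two X (pow_comm X hL j)

/-- the image of the cohomology of `X` in that of an intersection of `j` members of `|m L|` -/
def QR (_ : L ∈ X.H (1, 1)) (j : ℕ) : Type := X.R ⧸ ann X (L ^ j)

noncomputable instance : Ring (QR X hL j) := by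
  haveI := two X hL j
  exact inferInstanceAs (Ring (X.R ⧸ ann X (L ^ j)))

noncomputable instance : Algebra ℂ (QR X hL j) := by
  haveI := two X hL j
  exact inferInstanceAs (Algebra ℂ (X.R ⧸ ann X (L ^ j)))

/-- restriction -/
noncomputable def mk : X.R →ₐ[ℂ] QR X hL j := by
  haveI := two X hL j
  exact Ideal.Quotient.mkₐ ℂ (ann X (L ^ j))

theorem mk_surj : Function.Surjective (mk X hL j) := by
  haveI := two X hL j
  exact Ideal.Quotient.mk_surjective

theorem mk_zero_iff {x : X.R} : mk X hL j x = 0 ↔ L ^ j * x = 0 := by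
  haveI := two X hL j
  rw [pow_comm X hL j, ← mem_ann]
  exact Ideal.Quotient.eq_zero_iff_mem

instance : FiniteDimensional ℂ (QR X hL j) :=
  Module.Finite.of_surjective (mk X hL j).toLinearMap (mk_surj X hL j)

theorem exists_psi : ∃ ψ : QR X hL j →ₗ[ℂ] X.R, ∀ x, ψ (mk X hL j x) = L ^ j * x := by
  have hk : LinearMap.ker (mk X hL j).toLinearMap ≤ LinearMap.ker (LinearMap.mulLeft ℂ (L ^ j)) := by
    intro x hx
    exact (mk_zero_iff X hL j).1 hx
  obtain ⟨s, hs⟩ := (mk X hL j).toLinearMap.exists_rightInverse_of_surjective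
    (LinearMap.range_eq_top.2 (mk_surj X hL j))
  refine ⟨LinearMap.mulLeft ℂ (L ^ j) ∘ₗ s, fun x => ?_⟩
  have h1 : (mk X hL j).toLinearMap (s (mk X hL j x) - x) = 0 := by
    rw [map_sub]
    have := LinearMap.congr_fun hs (mk X hL j x)
    simp only [LinearMap.comp_apply, LinearMap.id_apply] at this
    rw [this]
    exact sub_self _
  have h2 := hk h1
  rw [LinearMap.mem_ker, map_sub, sub_eq_zero] at h2
  exact h2

/-- the product with `L ^ j`, on the image -/
noncomputable def psi : QR X hL j →ₗ[ℂ] X.R := (exists_psi X hL j).choose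

theorem psi_mk (x : X.R) : psi X hL j (mk X hL j x) = L ^ j * x := (exists_psi X hL j).choose_spec x

theorem psi_inj : Function.Injective (psi X hL j) := by
  rw [injective_iff_map_eq_zero]
  intro a ha
  obtain ⟨x, rfl⟩ := mk_surj X hL j a
  rw [psi_mk] at ha
  exact (mk_zero_iff X hL j).2 ha

/-- the grading of the image -/
noncomputable def QH (pq : ℤ × ℤ) : Submodule ℂ (QR X hL j) :=
  Submodule.map (mk X hL j).toLinearMap (X.H pq)

theorem mk_mem {pq : ℤ × ℤ} {x : X.R} (hx : x ∈ X.H pq) : mk X hL j x ∈ QH X hL j pq :=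
  ⟨x, hx, rfl⟩

theorem QH_exists {pq : ℤ × ℤ} {a : QR X hL j} (ha : a ∈ QH X hL j pq) :
    ∃ x ∈ X.H pq, mk X hL j x = a := by
  obtain ⟨x, hx, rfl⟩ := ha
  exact ⟨x, hx, rfl⟩

theorem psi_QH (pq : ℤ × ℤ) :
    Submodule.map (psi X hL j) (QH X hL j pq) ≤ X.H (pq.1 + j, pq.2 + j) := by
  rintro _ ⟨a, ha, rfl⟩
  obtain ⟨x, hx, rfl⟩ := QH_exists X hL j ha
  rw [psi_mk]
  exact X.pow_mul_mem hL j hx

theorem QH_indep : iSupIndep (QH X hL j) := by
  have h0 := (DirectSum.Decomposition.isInternal X.H).submodule_iSupIndep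
  have h1 : iSupIndep (fun pq : ℤ × ℤ => X.H (pq.1 + j, pq.2 + j)) :=
    h0.comp (f := fun pq : ℤ × ℤ => ((pq.1 + j, pq.2 + j) : ℤ × ℤ)) (fun a b hab => by
      have e1 := congrArg Prod.fst hab
      have e2 := congrArg Prod.snd hab
      simp only at e1 e2
      ext <;> omega)
  have h2 : iSupIndep (fun pq : ℤ × ℤ => Submodule.map (psi X hL j) (QH X hL j pq)) :=
    h1.mono (psi_QH X hL j)
  intro i
  rw [Submodule.disjoint_def]
  intro a ha hb
  have h3 := h2 i
  rw [Submodule.disjoint_def] at h3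
  apply psi_inj X hL j
  rw [map_zero]
  refine h3 _ ⟨a, ha, rfl⟩ ?_
  have h4 : psi X hL j a ∈ Submodule.map (psi X hL j) (⨆ k, ⨆ (_ : k ≠ i), QH X hL j k) :=
    ⟨a, hb, rfl⟩
  simpa only [Submodule.map_iSup] using h4

theorem QH_internal : DirectSum.IsInternal (QH X hL j) := by
  rw [DirectSum.isInternal_submodule_iff_iSupIndep_and_iSup_eq_top]
  refine ⟨QH_indep X hL j, ?_⟩
  have h0 := (DirectSum.Decomposition.isInternal X.H).submodule_iSup_eq_top
  have h1 : (⨆ i, QH X hL j i) = Submodule.map (mk X hL j).toLinearMap (⨆ i, X.H i) := by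
    rw [Submodule.map_iSup]
    rfl
  rw [h1, h0, Submodule.map_top, LinearMap.range_eq_top]
  exact mk_surj X hL j

noncomputable instance : GradedRing (QH X hL j) where
  one_mem := by
    refine ⟨1, X.one_mem, ?_⟩
    exact map_one (mk X hL j)
  mul_mem := by
    intro a b x y hx hy
    obtain ⟨x', hx', rfl⟩ := QH_exists X hL j hx
    obtain ⟨y', hy', rfl⟩ := QH_exists X hL j hy
    rw [← map_mul]
    exact mk_mem X hL j (SetLike.mul_mem_graded hx' hy')
  toDecomposition := (QH_internal X hL j).chooseDecomposition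

end Run7.h30
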