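import Pool.Agent.Run7.h30.Quot

set_option autoImplicit false

open scoped ComplexConjugate
open Module Pool.Agent.W539.DI Pool.Agent.R929.DH

namespace Run7.h30

variable {n : ℕ} (X : KRing n) {L : X.R}

theorem le_of_pow_ne (hL : L ∈ X.H (1, 1)) {ν : ℕ} (h : L ^ ν ≠ 0) : ν ≤ n := by
  by_contra hn
  apply h
  have h1 := X.pow_mem hL ν
  rw [X.van_top (by omega)] at h1
  exact h1

theorem pow_ne_le {ν j : ℕ} (h : L ^ ν ≠ 0) (hj : j ≤ ν) : L ^ j ≠ 0 := by
  intro h0
  apply h
  obtain ⟨k, rfl⟩ := Nat.exists_eq_add_of_le hj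
  rw [pow_add, h0, zero_mul]

theorem exists_qbar (hL : L ∈ X.H (1, 1)) (hr : X.bar L = L) (j : ℕ) :
    ∃ b : QR X hL j →ₛₗ[starRingEnd ℂ] QR X hL j, ∀ x, b (mk X hL j x) = mk X hL j (X.bar x) := by
  have hk : ∀ x, mk X hL j x = 0 → mk X hL j (X.bar x) = 0 := by
    intro x hx
    rw [mk_zero_iff] at *
    rw [← bar_pow_of X hr j, ← X.bar_mul, hx, map_zero]
  obtain ⟨s, hs⟩ := (mk X hL j).toLinearMap.exists_rightInverse_of_surjective
    (LinearMap.range_eq_top.2 (mk_surj X hL j))
  refine ⟨((mk X hL j).toLinearMap.comp X.bar).comp s, fun x => ?_⟩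
  have h1 : mk X hL j (s (mk X hL j x) - x) = 0 := by
    rw [map_sub]
    have := LinearMap.congr_fun hs (mk X hL j x)
    simp only [LinearMap.comp_apply, LinearMap.id_apply] at this
    have h2 : mk X hL j (s (mk X hL j x)) = mk X hL j x := this
    rw [h2, sub_self]
  have h2 := hk _ h1
  rw [map_sub, map_sub, sub_eq_zero] at h2
  exact h2

/-- complex conjugation on the image -/
noncomputable def qbar (hL : L ∈ X.H (1, 1)) (hr : X.bar L = L) (j : ℕ) :
    QR X hL j →ₛₗ[starRingEnd ℂ] QR X hL j := (exists_qbar X hL hr j).choose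

theorem qbar_mk (hL : L ∈ X.H (1, 1)) (hr : X.bar L = L) (j : ℕ) (x : X.R) :
    qbar X hL hr j (mk X hL j x) = mk X hL j (X.bar x) := (exists_qbar X hL hr j).choose_spec x

/-- The image of the cohomology of `X` in the cohomology of the intersection of `j ≤ ν` general
members of `|m L|`. -/
noncomputable def quotK {ν : ℕ} (P : PullbackAmple X L ν) (j : ℕ) (hj : j ≤ ν) : KRing (n - j) where
  R := QR X P.mem j
  H := QH X P.mem j
  van := by
    intro p q h
    unfold QH
    rw [X.van p q h, Submodule.map_bot]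
  conn := by
    have h1 : (1 : X.R) ≠ 0 := by
      intro h
      apply P.pow_ne
      have : L ^ ν = L ^ ν * 1 := (mul_one _).symm
      rw [this, h, mul_zero]
    have h2 : mk X P.mem j 1 ≠ 0 := by
      intro h
      rw [mk_zero_iff, mul_one] at h
      exact pow_ne_le X P.pow_ne hj h
    have h3 : X.H (0, 0) = Submodule.span ℂ {(1 : X.R)} := by
      symm
      apply Submodule.eq_of_le_of_finrank_eq
      · rw [Submodule.span_singleton_le_iff_mem]
        exact X.one_mem
      · rw [X.conn, finrank_span_singleton h1]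
    unfold QH
    rw [h3, Submodule.map_span, Set.image_singleton]
    exact finrank_span_singleton h2
  comm := by
    intro p q p' q' x y hx hy
    obtain ⟨x', hx', rfl⟩ := QH_exists X P.mem j hx
    obtain ⟨y', hy', rfl⟩ := QH_exists X P.mem j hy
    rw [← map_mul, ← map_mul, X.comm p q p' q' x' y' hx' hy', map_smul]
  bar := qbar X P.mem P.real j
  bar_bar := by
    intro x
    obtain ⟨x', rfl⟩ := mk_surj X P.mem j x
    rw [qbar_mk, qbar_mk, X.bar_bar]
  bar_mul := by
    intro x y
    obtain ⟨x', rfl⟩ := mk_surj X P.mem j x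
    obtain ⟨y', rfl⟩ := mk_surj X P.mem j y
    rw [← map_mul, qbar_mk, qbar_mk, qbar_mk, X.bar_mul, map_mul]
  bar_mem := by
    intro p q x hx
    obtain ⟨x', hx', rfl⟩ := QH_exists X P.mem j hx
    rw [qbar_mk]
    exact mk_mem X P.mem j (X.bar_mem p q x' hx')
  tr := X.tr ∘ₗ psi X P.mem j
  tr_van := by
    intro p q x hx hn
    have hν := le_of_pow_ne X P.mem P.pow_ne
    obtain ⟨x', hx', rfl⟩ := QH_exists X P.mem j hx
    rw [LinearMap.comp_apply, psi_mk]
    refine X.tr_van _ _ _ (X.pow_mul_mem P.mem j hx') ?_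
    intro h
    apply hn
    omega
  tr_bar := by
    intro x
    obtain ⟨x', rfl⟩ := mk_surj X P.mem j x
    rw [qbar_mk, LinearMap.comp_apply, LinearMap.comp_apply, psi_mk, psi_mk, ← X.tr_bar,
      X.bar_mul, bar_pow_of X P.real]
  pd := by
    intro p q x hx h
    have hν := le_of_pow_ne X P.mem P.pow_ne
    obtain ⟨x', hx', rfl⟩ := QH_exists X P.mem j hx
    rw [mk_zero_iff]
    apply X.pd _ _ _ (X.pow_mul_mem P.mem j hx')
    intro y hy
    have e : ((n - j : ℕ) : ℤ) = n - j := by omega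
    have h1 : y ∈ X.H (((n - j : ℕ) : ℤ) - p, ((n - j : ℕ) : ℤ) - q) := by
      rw [e]
      have e1 : (n : ℤ) - j - p = n - (p + j) := by ring
      have e2 : (n : ℤ) - j - q = n - (q + j) := by ring
      rw [e1, e2]
      exact hy
    have h2 := h _ (mk_mem X P.mem j h1)
    rw [← map_mul, LinearMap.comp_apply, psi_mk] at h2
    rw [mul_assoc]
    exact h2
  ω := mk X P.mem j X.ω
  ω_mem := mk_mem X P.mem j X.ω_mem
  ω_bar := by rw [qbar_mk, X.ω_bar]
  hl_inj := by
    intro p q k hk x hx h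
    have hν := le_of_pow_ne X P.mem P.pow_ne
    obtain ⟨x', hx', rfl⟩ := QH_exists X P.mem j hx
    rw [← map_pow, ← map_mul, mk_zero_iff] at h
    rw [mk_zero_iff]
    exact P.hl_inj j k p q hj (by omega) x' hx' h
  hl_surj := by
    intro p q k hk y hy
    have hν := le_of_pow_ne X P.mem P.pow_ne
    obtain ⟨y', hy', rfl⟩ := QH_exists X P.mem j hy
    obtain ⟨x, hx, h⟩ := P.hl_surj j k p q hj (by omega) y' hy'
    refine ⟨mk X P.mem j x, mk_mem X P.mem j hx, ?_⟩
    rw [← map_pow, ← map_mul, ← sub_eq_zero, ← map_sub, mk_zero_iff, mul_sub, h, sub_self]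
  hr := by
    intro p q k hk x hx hx0 h
    have hν := le_of_pow_ne X P.mem P.pow_ne
    obtain ⟨x', hx', rfl⟩ := QH_exists X P.mem j hx
    rw [← map_pow, ← map_mul, mk_zero_iff] at h
    rw [ne_eq, mk_zero_iff] at hx0
    obtain ⟨r, hr, h2⟩ := P.hr j k p q hj (by omega) x' hx' hx0 h
    refine ⟨r, hr, ?_⟩
    rw [qbar_mk, ← map_mul, ← map_pow, ← map_mul, LinearMap.comp_apply, psi_mk]
    exact h2
  c := mk X P.mem j X.c
  c_mem := mk_mem X P.mem j X.c_mem
  c_bar := by rw [qbar_mk, X.c_bar]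

variable {ν : ℕ} (P : PullbackAmple X L ν) {j : ℕ} (hj : j ≤ ν)

theorem quotK_h (p q : ℤ) : (quotK X P j hj).h p q = rk X L j p q := by
  unfold KRing.h rk
  have h1 : Submodule.map (LinearMap.mulLeft ℂ (L ^ j)) (X.H (p, q)) =
      Submodule.map (psi X P.mem j) (QH X P.mem j (p, q)) := by
    unfold QH
    rw [← Submodule.map_comp]
    congr 1
    ext x
    rw [LinearMap.comp_apply]
    exact (psi_mk X P.mem j x).symm
  rw [h1]
  exact (Submodule.equivMapOfInjective _ (psi_inj X P.mem j) _).finrank_eq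

/-- Restriction to the intersection of `j` general members of `|m L|`. -/
noncomputable def res : X.R →ₐ[ℂ] (quotK X P j hj).R := mk X P.mem j

theorem res_surj : Function.Surjective (res X P hj) := mk_surj X P.mem j

theorem res_zero_iff {x : X.R} : res X P hj x = 0 ↔ L ^ j * x = 0 := mk_zero_iff X P.mem j

theorem res_bar (x : X.R) : (quotK X P j hj).bar (res X P hj x) = res X P hj (X.bar x) :=
  qbar_mk X P.mem P.real j x

theorem res_tr (x : X.R) : (quotK X P j hj).tr (res X P hj x) = X.tr (L ^ j * x) := by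
  have h : (quotK X P j hj).tr (res X P hj x) = X.tr (psi X P.mem j (mk X P.mem j x)) := rfl
  rw [h, psi_mk]

theorem res_H (pq : ℤ × ℤ) :
    (quotK X P j hj).H pq = Submodule.map (res X P hj).toLinearMap (X.H pq) := rfl

theorem res_mem {pq : ℤ × ℤ} {x : X.R} (hx : x ∈ X.H pq) :
    res X P hj x ∈ (quotK X P j hj).H pq := mk_mem X P.mem j hx

theorem res_c : (quotK X P j hj).c = res X P hj X.c := rfl

theorem res_dual (x : X.R) : (quotK X P j hj).dual (res X P hj x) = res X P hj (X.dual x) := by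
  refine X.ind (P := fun x => (quotK X P j hj).dual (res X P hj x) = res X P hj (X.dual x))
    ?_ ?_ ?_ x
  · simp
  · intro x y hx hy
    rw [map_add, map_add, map_add, map_add, hx, hy]
  · intro p q x hx
    rw [X.dual_of hx, (quotK X P j hj).dual_of (res_mem X P hj hx), map_smul]

omit X in
theorem tr_c_van {X : KRing n} {L : X.R} (hL : L ∈ X.H (1, 1)) {m j : ℕ} (hm : n - j < m)
    (x : X.R) : X.tr (X.c ^ m * (L ^ j * x)) = 0 := by
  refine X.ind (P := fun x => X.tr (X.c ^ m * (L ^ j * x)) = 0) ?_ ?_ ?_ x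
  · simp
  · intro x y hx hy
    rw [mul_add, mul_add, map_add, hx, hy, add_zero]
  · intro p q x hx
    by_cases h : p < 0 ∨ q < 0
    · rw [X.van p q h, Submodule.mem_bot] at hx
      rw [hx]
      simp
    · have h1 := X.pow_mul_mem X.c_mem m (X.pow_mul_mem hL j hx)
      exact X.tr_van _ _ _ h1 (by omega)

theorem tr_expc (x : X.R) : (quotK X P j hj).tr ((quotK X P j hj).expc * res X P hj x) =
    X.tr (X.expc * (L ^ j * x)) := by
  unfold KRing.expc
  rw [Finset.sum_mul, Finset.sum_mul, map_sum, map_sum]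
  have h1 : ∀ m : ℕ, (quotK X P j hj).tr
      (((1 : ℂ) / (2 ^ m * (m.factorial : ℂ))) • (quotK X P j hj).c ^ m * res X P hj x) =
      X.tr (((1 : ℂ) / (2 ^ m * (m.factorial : ℂ))) • X.c ^ m * (L ^ j * x)) := by
    intro m
    rw [res_c, smul_mul_assoc, smul_mul_assoc, map_smul, map_smul, ← map_pow, ← map_mul, res_tr,
      ← mul_assoc, pow_comm X P.mem, mul_assoc]
  rw [Finset.sum_congr rfl fun m _ => h1 m]
  apply Finset.sum_subset
  · intro m hm
    rw [Finset.mem_range] at *
    omega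
  · intro m _ hm
    rw [Finset.mem_range] at hm
    rw [smul_mul_assoc, map_smul, tr_c_van P.mem (by omega), smul_zero]

theorem res_mukai (x y : X.R) : (quotK X P j hj).mukai (res X P hj x) (res X P hj y) =
    X.mukai x (L ^ j * y) := by
  unfold KRing.mukai
  rw [res_dual, ← map_mul, tr_expc, ← mul_assoc (X.dual x), ← pow_comm X P.mem, mul_assoc]

variable {Y : KRing n} {L' : Y.R} (Q : PullbackAmple Y L' ν)

omit X in
theorem inter_pow {X : KRing n} {Φ : FM X Y} {L : X.R} {L' : Y.R} (h : Intertwines Φ L L') (j : ℕ)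
    (x : X.R) : Φ.φ (L ^ j * x) = L' ^ j * Φ.φ x := by
  induction j with
  | zero => simp
  | succ j ih =>
    rw [pow_succ', pow_succ', mul_assoc, h, ih, mul_assoc]

theorem exists_qphi {Φ : FM X Y} (h : Intertwines Φ L L') :
    ∃ f : (quotK X P j hj).R ≃ₗ[ℂ] (quotK Y Q j hj).R,
      ∀ x, f (res X P hj x) = res Y Q hj (Φ.φ x) := by
  obtain ⟨s, hs⟩ := (res X P hj).toLinearMap.exists_rightInverse_of_surjective
    (LinearMap.range_eq_top.2 (res_surj X P hj))
  have hs' : ∀ a, res X P hj (s a) = a := fun a => LinearMap.congr_fun hs a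
  let f : (quotK X P j hj).R →ₗ[ℂ] (quotK Y Q j hj).R :=
    (res Y Q hj).toLinearMap ∘ₗ Φ.φ.toLinearMap ∘ₗ s
  have hf : ∀ x, f (res X P hj x) = res Y Q hj (Φ.φ x) := by
    intro x
    have h1 : res X P hj (s (res X P hj x) - x) = 0 := by
      rw [map_sub, hs', sub_self]
    rw [res_zero_iff] at h1
    have h2 : res Y Q hj (Φ.φ (s (res X P hj x) - x)) = 0 := by
      rw [res_zero_iff, ← inter_pow h, h1, map_zero]
    rw [map_sub, map_sub, sub_eq_zero] at h2
    exact h2
  refine ⟨LinearEquiv.ofBijective f ⟨?_, ?_⟩, hf⟩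
  · rw [injective_iff_map_eq_zero]
    intro a ha
    obtain ⟨x, rfl⟩ := res_surj X P hj a
    rw [hf, res_zero_iff, ← inter_pow h] at ha
    rw [res_zero_iff]
    exact (LinearEquiv.map_eq_zero_iff Φ.φ).1 ha
  · intro b
    obtain ⟨y, rfl⟩ := res_surj Y Q hj b
    refine ⟨res X P hj (Φ.φ.symm y), ?_⟩
    rw [hf, LinearEquiv.apply_symm_apply]

/-- the isomorphism of the images -/
noncomputable def qphi {Φ : FM X Y} (h : Intertwines Φ L L') :
    (quotK X P j hj).R ≃ₗ[ℂ] (quotK Y Q j hj).R := (exists_qphi X P hj Q h).choose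

theorem qphi_res {Φ : FM X Y} (h : Intertwines Φ L L') (x : X.R) :
    qphi X P hj Q h (res X P hj x) = res Y Q hj (Φ.φ x) := (exists_qphi X P hj Q h).choose_spec x

/-- The transform on the images. -/
noncomputable def quotFM {Φ : FM X Y} (h : Intertwines Φ L L') :
    FM (quotK X P j hj) (quotK Y Q j hj) where
  φ := qphi X P hj Q h
  real := by
    intro x
    obtain ⟨x', rfl⟩ := res_surj X P hj x
    rw [res_bar, qphi_res, qphi_res, res_bar, Φ.real]
  hodge := by
    intro p q
    have e1 : ∀ Z : KRing n, ∀ {M : Z.R} (R : PullbackAmple Z M ν),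
        (⨆ k : ℤ, (quotK Z R j hj).H (p + k, q + k)) =
        Submodule.map (res Z R hj).toLinearMap (⨆ k : ℤ, Z.H (p + k, q + k)) := by
      intro Z M R
      rw [Submodule.map_iSup]
      rfl
    rw [e1 X P, e1 Y Q, ← Φ.hodge p q, ← Submodule.map_comp, ← Submodule.map_comp]
    congr 1
    ext x
    exact qphi_res X P hj Q h x
  isom := by
    intro x y
    obtain ⟨x', rfl⟩ := res_surj X P hj x
    obtain ⟨y', rfl⟩ := res_surj X P hj y
    rw [qphi_res, qphi_res, res_mukai, res_mukai, ← inter_pow h, Φ.isom]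

end Run7.h30
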