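import Pool.Agent.Run7.h30.Forms
import Pool.Agent.Run7.h30.Moment

set_option autoImplicit false

namespace Run7.h30

open Finset Pool.Agent.W539.DI Pool.Agent.R929.DH

theorem six_aux (f g : ℕ → ℕ → ℕ)
    (fc : ∀ p q, f p q = f q p) (gc : ∀ p q, g p q = g q p)
    (fd : ∀ p q, p ≤ 6 → q ≤ 6 → f p q = f (6 - q) (6 - p))
    (gd : ∀ p q, p ≤ 6 → q ≤ 6 → g p q = g (6 - q) (6 - p))
    (h00 : f 0 0 = g 0 0) (h10 : f 1 0 = g 1 0) (h20 : f 2 0 = g 2 0) (h30 : f 3 0 = g 3 0)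
    (h40 : f 4 0 = g 4 0) (h50 : f 5 0 = g 5 0) (h60 : f 6 0 = g 6 0)
    (h22 : f 2 2 + f 0 0 = g 2 2 + g 0 0) (h33 : f 3 3 + 2 * f 1 1 = g 3 3 + 2 * g 1 1)
    (h31 : f 3 1 = g 3 1) (h42 : f 4 2 + 2 * f 2 0 = g 4 2 + 2 * g 2 0)
    (h51 : f 5 1 = g 5 1)
    (t1 : f 1 0 + f 2 1 + f 3 2 + f 4 3 + f 5 4 + f 6 5 =
      g 1 0 + g 2 1 + g 3 2 + g 4 3 + g 5 4 + g 6 5)
    (t3 : f 3 0 + f 4 1 + f 5 2 + f 6 3 = g 3 0 + g 4 1 + g 5 2 + g 6 3)
    (hm : ∑ p ∈ range 7, ∑ q ∈ range 7, (-1) ^ (p + q) * (2 * (p : ℤ) - 6) ^ 2 * (f p q : ℤ) =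
      ∑ p ∈ range 7, ∑ q ∈ range 7, (-1) ^ (p + q) * (2 * (p : ℤ) - 6) ^ 2 * (g p q : ℤ)) :
    (f 1 1 + g 2 1 = g 1 1 + f 2 1) ∧
    (f 1 1 = g 1 1 → ∀ p q, p ≤ 6 → q ≤ 6 → f p q = g p q) := by
  have f1 := fc 1 0
  have f2 := fc 2 0
  have f3 := fc 3 0
  have f4 := fc 4 0
  have f5 := fc 5 0
  have f6 := fc 6 0
  have f7 := fc 2 1
  have f8 := fc 3 1
  have f9 := fc 4 1
  have f10 := fc 5 1
  have f11 := fc 6 1
  have f12 := fc 3 2
  have f13 := fc 4 2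
  have f14 := fc 5 2
  have f15 := fc 6 2
  have f16 := fc 4 3
  have f17 := fc 5 3
  have f18 := fc 6 3
  have f19 := fc 5 4
  have f20 := fc 6 4
  have f21 := fc 6 5
  have g1 := gc 1 0
  have g2 := gc 2 0
  have g3 := gc 3 0
  have g4 := gc 4 0
  have g5 := gc 5 0
  have g6 := gc 6 0
  have g7 := gc 2 1
  have g8 := gc 3 1
  have g9 := gc 4 1
  have g10 := gc 5 1
  have g11 := gc 6 1
  have g12 := gc 3 2
  have g13 := gc 4 2
  have g14 := gc 5 2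
  have g15 := gc 6 2
  have g16 := gc 4 3
  have g17 := gc 5 3
  have g18 := gc 6 3
  have g19 := gc 5 4
  have g20 := gc 6 4
  have g21 := gc 6 5
  have f31 : f 6 6 = f 0 0 := fd 6 6 (by norm_num) (by norm_num)
  have f32 : f 5 5 = f 1 1 := fd 5 5 (by norm_num) (by norm_num)
  have f33 : f 4 4 = f 2 2 := fd 4 4 (by norm_num) (by norm_num)
  have f34 : f 6 5 = f 1 0 := fd 6 5 (by norm_num) (by norm_num)
  have f35 : f 6 4 = f 2 0 := fd 6 4 (by norm_num) (by norm_num)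
  have f36 : f 6 3 = f 3 0 := fd 6 3 (by norm_num) (by norm_num)
  have f37 : f 6 2 = f 4 0 := fd 6 2 (by norm_num) (by norm_num)
  have f38 : f 6 1 = f 5 0 := fd 6 1 (by norm_num) (by norm_num)
  have f39 : f 5 4 = f 2 1 := fd 5 4 (by norm_num) (by norm_num)
  have f40 : f 5 3 = f 3 1 := fd 5 3 (by norm_num) (by norm_num)
  have f41 : f 5 2 = f 4 1 := fd 5 2 (by norm_num) (by norm_num)
  have f42 : f 4 3 = f 3 2 := fd 4 3 (by norm_num) (by norm_num)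
  have g31 : g 6 6 = g 0 0 := gd 6 6 (by norm_num) (by norm_num)
  have g32 : g 5 5 = g 1 1 := gd 5 5 (by norm_num) (by norm_num)
  have g33 : g 4 4 = g 2 2 := gd 4 4 (by norm_num) (by norm_num)
  have g34 : g 6 5 = g 1 0 := gd 6 5 (by norm_num) (by norm_num)
  have g35 : g 6 4 = g 2 0 := gd 6 4 (by norm_num) (by norm_num)
  have g36 : g 6 3 = g 3 0 := gd 6 3 (by norm_num) (by norm_num)
  have g37 : g 6 2 = g 4 0 := gd 6 2 (by norm_num) (by norm_num)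
  have g38 : g 6 1 = g 5 0 := gd 6 1 (by norm_num) (by norm_num)
  have g39 : g 5 4 = g 2 1 := gd 5 4 (by norm_num) (by norm_num)
  have g40 : g 5 3 = g 3 1 := gd 5 3 (by norm_num) (by norm_num)
  have g41 : g 5 2 = g 4 1 := gd 5 2 (by norm_num) (by norm_num)
  have g42 : g 4 3 = g 3 2 := gd 4 3 (by norm_num) (by norm_num)
  simp only [sum_range_succ, range_zero, sum_empty, zero_add] at hm
  norm_num at hm
  have k41 : f 4 1 = g 4 1 := by omega
  have k22 : f 2 2 = g 2 2 := by omega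
  have k42 : f 4 2 = g 4 2 := by omega
  have key : f 1 1 + g 2 1 = g 1 1 + f 2 1 := by omega
  refine ⟨key, fun h11 => ?_⟩
  have k21 : f 2 1 = g 2 1 := by omega
  have k32 : f 3 2 = g 3 2 := by omega
  have k33 : f 3 3 = g 3 3 := by omega
  intro p q hp hq
  interval_cases p <;> interval_cases q <;> omega

theorem symm6 (X : KRing 6) (p q : ℕ) (hp : p ≤ 6) (hq : q ≤ 6) :
    X.h p q = X.h ((6 - q : ℕ) : ℤ) ((6 - p : ℕ) : ℤ) := by
  by_cases h : p + q ≤ 6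
  · have h1 := X.h_symm (p := p) (q := q) (6 - p - q) (by push_cast; omega)
    have e1 : ((6 - q : ℕ) : ℤ) = (p : ℤ) + ((6 - p - q : ℕ) : ℤ) := by omega
    have e2 : ((6 - p : ℕ) : ℤ) = (q : ℤ) + ((6 - p - q : ℕ) : ℤ) := by omega
    rw [e1, e2, h1]
  · have h1 := X.h_symm (p := ((6 - q : ℕ) : ℤ)) (q := ((6 - p : ℕ) : ℤ)) (p + q - 6)
      (by push_cast; omega)
    have e1 : (p : ℤ) = ((6 - q : ℕ) : ℤ) + ((p + q - 6 : ℕ) : ℤ) := by omega
    have e2 : (q : ℤ) = ((6 - p : ℕ) : ℤ) + ((p + q - 6 : ℕ) : ℤ) := by omega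
    rw [h1, ← e1, ← e2]

theorem six {X Y : KRing 6} (Φ : FM X Y) (hq0 : ∀ q : ℤ, X.h q 0 = Y.h q 0)
    (hm : moment X = moment Y) :
    (X.h 1 1 + Y.h 2 1 = Y.h 1 1 + X.h 2 1) ∧
    (X.h 1 1 = Y.h 1 1 → ∀ p q : ℤ, X.h p q = Y.h p q) := by
  obtain ⟨a1, a2⟩ := Φ.hodge_sums 3 3 rfl
  obtain ⟨b1, b2⟩ := Φ.hodge_sums 4 2 rfl
  obtain ⟨c1, c2⟩ := Φ.hodge_sums 5 1 rfl
  rw [X.sum_first _ _ (by norm_num) (by norm_num), Y.sum_first _ _ (by norm_num) (by norm_num)]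
    at a2 b1 b2 c1 c2
  simp only [Finset.sum_range_succ, Finset.range_zero, Finset.sum_empty] at a1
  norm_num at a1 a2 b1 b2 c1 c2
  have z : ∀ (Z : KRing 6) (p q : ℤ), p < 0 ∨ q < 0 → Z.h p q = 0 := fun Z p q h => Z.h_neg h
  rw [z X (-2) (-2) (by norm_num), z X (-4) (-4) (by norm_num), z X (-6) (-6) (by norm_num),
    z X (-8) (-8) (by norm_num), z Y (-2) (-2) (by norm_num), z Y (-4) (-4) (by norm_num),
    z Y (-6) (-6) (by norm_num), z Y (-8) (-8) (by norm_num)] at a1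
  rw [z X 3 (-1) (by norm_num), z Y 3 (-1) (by norm_num)] at c2
  have t1 := Φ.total_all 1 0 {0, 1, 2, 3, 4, 5} (by
    intro k hk
    simp only [Finset.mem_insert, Finset.mem_singleton] at hk
    push_cast
    omega)
  have t3 := Φ.total_all 3 0 {0, 1, 2, 3} (by
    intro k hk
    simp only [Finset.mem_insert, Finset.mem_singleton] at hk
    push_cast
    omega)
  repeat rw [Finset.sum_insert (by decide)] at t1
  repeat rw [Finset.sum_insert (by decide)] at t3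
  rw [Finset.sum_singleton, Finset.sum_singleton] at t1 t3
  norm_num at t1 t3
  unfold moment at hm
  have key := six_aux (fun p q => X.h p q) (fun p q => Y.h p q)
    (fun p q => X.h_swap p q) (fun p q => Y.h_swap p q) (symm6 X) (symm6 Y)
    (by exact_mod_cast hq0 0) (by exact_mod_cast hq0 1) (by exact_mod_cast hq0 2)
    (by exact_mod_cast hq0 3) (by exact_mod_cast hq0 4) (by exact_mod_cast hq0 5)
    (by exact_mod_cast hq0 6) (by push_cast; omega) (by push_cast; omega)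
    (by push_cast; omega) (by push_cast; omega) (by push_cast; omega) (by push_cast; omega)
    (by push_cast; omega) (by exact_mod_cast hm)
  refine ⟨by exact_mod_cast key.1, fun h11 p q => ?_⟩
  by_cases hout : p < 0 ∨ q < 0 ∨ ((6 : ℕ) : ℤ) < p ∨ ((6 : ℕ) : ℤ) < q
  · rw [X.h_zero hout, Y.h_zero hout]
  push_cast at hout
  obtain ⟨p', rfl⟩ := Int.eq_ofNat_of_zero_le (show 0 ≤ p by omega)
  obtain ⟨q', rfl⟩ := Int.eq_ofNat_of_zero_le (show 0 ≤ q by omega)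
  exact key.2 (by exact_mod_cast h11) p' q' (by omega) (by omega)

end Run7.h30
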